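import Pool.Agent.H12.Defect.Tensor

/-!
# Exponential lower bound for the smoothability defect of powers
-/

open TensorProduct Module

namespace Pool.Agent.Results.MP_44217d_ag.DefectGrowth

open Pool.Agent.H12.Defect

universe u

/-- Let `k` be a field, `m` and `n` natural numbers and `Γ = Spec (Net k m)`, so that
`deg Γ^n = (2m+4)^n`. Every number `δ = deg Γ' - deg Γ^n`, where `Γ'` is a smoothable finite scheme
containing `Γ^n`, satisfies `(2m+4)^n + δ ≤ 9^n + 3^n δ`. -/
theorem result (k : Type u) [Field k] (m n : ℕ) :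
    finrank k (⨂[k] _ : Fin n, Net k m) = (2 * m + 4) ^ n ∧
      ∀ δ ∈ defects k (⨂[k] _ : Fin n, Net k m), (2 * m + 4) ^ n + δ ≤ 9 ^ n + 3 ^ n * δ := by
  refine ⟨finrank_pow, ?_⟩
  rintro δ ⟨B, iB, aB, hB, ⟨g, hg⟩, hd⟩
  exact defect_bound hB g hg hd

end Pool.Agent.Results.MP_44217d_ag.DefectGrowth
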