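import Pool.Agent.H14.RF.Growth

/-!
# The growth of the smoothability defect is governed by the apolar schemes of forms
-/

open TensorProduct Module Filter Topology

namespace Pool.Agent.Results.MP_44217d_ag.ReductionToForms

open Pool.Agent.H12.Defect Pool.Agent.H14.MM Pool.Agent.H14.RF

universe u

/-- Let `k` be an algebraically closed field and `ε₀ ≥ 0`. The limit statement of Q1,
`δ(Γ^n) / d^((1+ε)n) → 0` for `Γ` of degree `d`, holds for all (nonempty) finite schemes `Γ` and
all `ε > ε₀` if and only if it holds for all apolar schemes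
`Γ = Spec (k[x_1, …, x_n] / {g : φ (g h) = 0 for all h})` of nonzero forms `φ` and all `ε > ε₀`;
a form of degree `c` is a linear functional `φ` on `k[x_1, …, x_n]` which vanishes on the
monomials of degree different from `c`. For `ε₀ = 0` the first statement is Q1. -/
theorem result (k : Type u) [Field k] [IsAlgClosed k] (ε₀ : ℝ) (hε₀ : 0 ≤ ε₀) :
    (∀ (A : Type u) [CommRing A] [Algebra k A] [Module.Finite k A] [Nontrivial A] (ε : ℝ),
      ε₀ < ε → Tendsto (growthRatio k A ε) atTop (𝓝 0)) ↔
    (∀ (n c : ℕ) (φ : MvPolynomial (Fin n) k →ₗ[k] k), IsForm φ c → φ ≠ 0 → ∀ ε : ℝ,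
      ε₀ < ε → Tendsto (growthRatio k (FormAlg φ) ε) atTop (𝓝 0)) := by
  constructor
  · intro h n c φ hφ hφ0 ε hε
    have h1 := hφ.finite
    have h2 := nontrivial_formAlg hφ0
    exact h (FormAlg φ) ε hε
  · intro h A _ _ _ _ ε hε
    refine Bd.tendsto ?_ hε
    refine Bd.of_local (by linarith) (fun A _ _ _ c hA => ?_) (finrank k A) A le_rfl
    refine Bd.of_forms (by linarith) (fun n c φ hφ hφ0 => ?_) hA
    have h1 := hφ.finite
    have h2 := nontrivial_formAlg hφ0
    obtain ⟨α⟩ := exists_point (k := k) (A := FormAlg φ)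
    exact Bd.of_tendsto hε₀ α fun ε hε => h n c φ hφ hφ0 ε hε

end Pool.Agent.Results.MP_44217d_ag.ReductionToForms
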