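import Pool.Agent.H2.WG.Main

/-!
# The growth of the smoothability defect and Waring ranks of products of forms
-/

open Module MvPolynomial TensorProduct Filter Topology

namespace Pool.Agent.Results.MP_44217d_ag.WaringGrowth

open Pool.Agent.H2.WG Pool.Agent.H12.Defect Pool.Agent.H14.MM Pool.Agent.H14.RF

universe u

/-- Let `k` be an algebraically closed field.

(1) Let `φ ≠ 0` be a form of degree `c` in `v` variables (in divided powers, given by a functional
on polynomials), `Γ` its apolar scheme, `d = deg Γ`, and `W_N` the Waring rank of the product of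
`N` copies of `φ` in disjoint sets of variables (a form of degree `c N` in `N v` variables). Then
`δ(Γ ^ N)` is finite, `d ^ N + δ(Γ ^ N) ≤ (c N + 1) W_N`, and there is a real number `g ≥ d` which
is the limit of both `W_N ^ (1/N)` and `(d ^ N + δ(Γ ^ N)) ^ (1/N)` and satisfies
`g ^ N ≤ (c N + 1) (d ^ N + δ(Γ ^ N))` for all `N ≥ 1`.

(2) For every real `e ≥ 0` the following are equivalent: the limit statement of Q1 holds for all
nonempty finite schemes over `k` and all `ε > e`; it holds for the apolar schemes of all nonzero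
forms and all `ε > e`; for every nonzero form `φ` and all `ε > e`, the Waring rank of the product
of `N` copies of `φ` in disjoint variables is at most `(deg Γ) ^ ((1 + ε) N)` for all large `N`.
For `e = 0` the first statement is Q1. -/
theorem result (k : Type u) [Field k] [IsAlgClosed k] :
    (∀ (v c : ℕ) (φ : MvPolynomial (Fin v) k →ₗ[k] k), IsForm φ c → φ ≠ 0 →
      (∀ N : ℕ, defect k (⨂[k] _ : Fin N, FormAlg φ) ≠ ⊤ ∧
        finrank k (FormAlg φ) ^ N + (defect k (⨂[k] _ : Fin N, FormAlg φ)).toNat ≤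
          (c * N + 1) * waringRank (pw φ (Fin N)) (c * N)) ∧
      ∃ g : ℝ, (finrank k (FormAlg φ) : ℝ) ≤ g ∧
        Tendsto (fun N : ℕ => (waringRank (pw φ (Fin N)) (c * N) : ℝ) ^ (1 / (N : ℝ)))
          atTop (𝓝 g) ∧
        Tendsto (fun N : ℕ => ((finrank k (FormAlg φ) ^ N +
          (defect k (⨂[k] _ : Fin N, FormAlg φ)).toNat : ℕ) : ℝ) ^ (1 / (N : ℝ)))
          atTop (𝓝 g) ∧
        ∀ N : ℕ, 1 ≤ N → g ^ N ≤ (c * N + 1 : ℝ) * ((finrank k (FormAlg φ) ^ N +
          (defect k (⨂[k] _ : Fin N, FormAlg φ)).toNat : ℕ) : ℝ)) ∧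
    ∀ e : ℝ, 0 ≤ e → List.TFAE [
      ∀ (A : Type u) [CommRing A] [Algebra k A] [Module.Finite k A] [Nontrivial A] (ε : ℝ),
        e < ε → Tendsto (growthRatio k A ε) atTop (𝓝 0),
      ∀ (v c : ℕ) (φ : MvPolynomial (Fin v) k →ₗ[k] k), IsForm φ c → φ ≠ 0 → ∀ ε : ℝ,
        e < ε → Tendsto (growthRatio k (FormAlg φ) ε) atTop (𝓝 0),
      ∀ (v c : ℕ) (φ : MvPolynomial (Fin v) k →ₗ[k] k), IsForm φ c → φ ≠ 0 → ∀ ε : ℝ,
        e < ε → ∀ᶠ N : ℕ in atTop, (waringRank (pw φ (Fin N)) (c * N) : ℝ) ≤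
          (finrank k (FormAlg φ) : ℝ) ^ ((1 + ε) * N)] := by
  have : Infinite k := IsAlgClosed.instInfinite
  refine ⟨fun v c φ hφ hφ0 => ⟨fun N => law_upper hφ N, gr φ c, finrank_le_gr φ c,
    tendsto_Wn hφ hφ0, tendsto_Dn hφ hφ0, fun N hN => gr_pow_le φ c hN⟩, fun e he => ?_⟩
  tfae_have 1 ↔ 2 := all_iff_forms he
  tfae_have 2 ↔ 3 := by
    constructor
    · intro h v c φ hφ hφ0
      exact (waring_iff_gr hφ hφ0 he).mpr ((limit_iff_gr hφ hφ0 he).mp (h v c φ hφ hφ0))
    · intro h v c φ hφ hφ0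
      exact (limit_iff_gr hφ hφ0 he).mpr ((waring_iff_gr hφ hφ0 he).mp (h v c φ hφ hφ0))
  tfae_finish

end Pool.Agent.Results.MP_44217d_ag.WaringGrowth
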